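import Mathlib
import Pool.Agent.CTile.Fin
import Pool.Agent.PRf.Main

/-!
Convex tiles which are used only as translates and images under point reflections: the number of
the neighbours of a tile and the number of the facets.
-/

set_option autoImplicit false

namespace Pool.Agent.Results.MP_b99fbe_co.ReflectedTranslates

open Pool.Agent MeasureTheory
open scoped Pointwise

/-- Let `P` be a convex body in `ℝ^d` and let the tiles `g i (P)` be translates and images under
point reflections of `P` with disjoint interiors.  Every tile meets at most `2 * 3 ^ d - 1` other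
tiles; and if the tiles cover `ℝ^d` (periodically or not, face-to-face or not), then `P` has at
most `2 * 3 ^ d - 1` facets (`53` for `d = 3`), and their number `f` satisfies
`(f + 1) vol P ≤ 3 ^ d vol ((P - P) / 2)`. -/
theorem result (d : ℕ) (P : Set (Fin d → ℝ)) (hc : IsCompact P)
    (hP : Convex ℝ P) (hi : (interior P).Nonempty) {ι : Type}
    (g : ι → (Fin d → ℝ) → Fin d → ℝ)
    (hg : ∀ i, (∃ v, ∀ x, g i x = v + x) ∨ ∃ v, ∀ x, g i x = v - x)
    (hd : ∀ i j, i ≠ j → Disjoint (interior (g i '' P)) (interior (g j '' P))) :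
    (∀ i, {j | j ≠ i ∧ (g i '' P ∩ g j '' P).Nonempty}.Finite ∧
      {j | j ≠ i ∧ (g i '' P ∩ g j '' P).Nonempty}.ncard ≤ 2 * 3 ^ d - 1) ∧
    (⋃ i, g i '' P = Set.univ →
      ∃ f : ℕ, {F : Set (Fin d → ℝ) | F.Nonempty ∧ IsExposed ℝ P F ∧
        Module.finrank ℝ (vectorSpan ℝ F) + 1 = d}.encard = f ∧ f ≤ 2 * 3 ^ d - 1 ∧
        (f + 1) * (volume P).toReal ≤ 3 ^ d * (volume ((1 / 2 : ℝ) • (P - P))).toReal) := by
  constructor
  · intro i
    have hcQ : IsCompact (g i '' P) := by
      rcases hg i with ⟨v, hv⟩ | ⟨v, hv⟩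
      · rw [funext hv]; exact hc.image (by fun_prop)
      · rw [funext hv]; exact hc.image (by fun_prop)
    have hcv : Convex ℝ (g i '' P) := by
      rcases hg i with ⟨v, hv⟩ | ⟨v, hv⟩
      · rw [funext hv]
        exact hP.translate v
      · have h1 : g i '' P = (fun x => v + x) '' (-P) := by
          ext y
          constructor
          · rintro ⟨x, hx, rfl⟩
            refine ⟨-x, by simpa using hx, ?_⟩
            simp only [hv]
            abel
          · rintro ⟨x, hx, rfl⟩
            refine ⟨-x, hx, ?_⟩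
            simp only [hv]
            abel
        rw [h1]
        exact hP.neg.translate v
    have hiQ : (interior (g i '' P)).Nonempty := by
      obtain ⟨q, hq⟩ := hi
      rcases hg i with ⟨v, hv⟩ | ⟨v, hv⟩
      · exact ⟨v + q, CTile.plus_interior (T := g i '' P)
          (by unfold CTile.IsPlus; rw [funext hv]) hq⟩
      · exact ⟨v - q, CTile.minus_interior (T := g i '' P)
          (by unfold CTile.IsMinus; rw [funext hv]) hq⟩
    have h := CTile.neighbours hcQ hcv hiQ (T := fun j => g j '' P)
      (fun j => CTile.relative (hg i) (hg j)) hd rfl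
    rwa [Module.finrank_fin_fun] at h
  · intro hu
    obtain ⟨h1, h2, h3⟩ := PRf.result d P hP hc hi (fun i => g i '' P) (by
      intro i
      rcases hg i with ⟨v, hv⟩ | ⟨v, hv⟩
      · refine ⟨v, Or.inl ?_⟩
        refine Set.image_congr fun x _ => ?_
        rw [hv, add_comm]
      · exact ⟨v, Or.inr (Set.image_congr fun x _ => hv x)⟩) hd (by
      intro x
      have : x ∈ ⋃ i, g i '' P := by rw [hu]; trivial
      exact Set.mem_iUnion.1 this)
    set S := {F : Set (Fin d → ℝ) | F.Nonempty ∧ IsExposed ℝ P F ∧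
      Module.finrank ℝ (vectorSpan ℝ F) + 1 = d} with hS
    have hsub : S ⊆ {F | PRf.IsFacet P F} := by
      rintro F ⟨hne, hE, hdim⟩
      obtain ⟨l, hl⟩ := hE hne
      exact ⟨(l : (Fin d → ℝ) →ₗ[ℝ] ℝ), by rw [hl]; rfl, hne, hdim⟩
    have hfin : S.Finite := h1.subset hsub
    have hle : S.ncard ≤ {F | PRf.IsFacet P F}.ncard := Set.ncard_le_ncard hsub h1
    refine ⟨S.ncard, hfin.cast_ncard_eq.symm, hle.trans h2, ?_⟩
    have hcD : IsCompact ((1 / 2 : ℝ) • (P - P)) := by
      have : IsCompact (P - P) := by
        rw [← Set.sub_image_prod]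
        exact (hc.prod hc).image continuous_sub
      exact this.smul _
    have h4 : ((S.ncard + 1 : ℕ) : ENNReal) * volume P ≤
        3 ^ d * volume ((1 / 2 : ℝ) • (P - P)) := by
      refine le_trans ?_ h3
      gcongr
    have h5 := ENNReal.toReal_mono (by
      exact ENNReal.mul_ne_top (by simp) hcD.measure_lt_top.ne) h4
    rw [ENNReal.toReal_mul, ENNReal.toReal_mul, ENNReal.toReal_natCast,
      ENNReal.toReal_pow] at h5
    push_cast at h5
    simpa using h5

end Pool.Agent.Results.MP_b99fbe_co.ReflectedTranslates
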